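import Mathlib
import Pool.Agent.H574Z.Dia.NoDia

/-!
# Diamond can fail on a stationary set of points of cofinality omega of an ineffable cardinal
-/

namespace Pool.Agent.Results.MP_1eeea1_lc.Indestructible

open Cardinal Pool.Agent.Helper669.Forcing Pool.Agent.Helper669.K Pool.Agent.H574Z.Dia

/-- For every inaccessible `κ` there are a `κ`-directed closed forcing notion and a name `S` such
that it is forced that `κ` is regular, `S` is a stationary set of points of cofinality `ω` and
diamond fails on `S`; if the ineffability of `κ` is indestructible by `κ`-directed closed forcing,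
it is also forced that `κ` is ineffable. -/
theorem result (κ : Cardinal.{0}) (hκ : κ.IsInaccessible) :
    ∃ (P : Type) (_ : Preorder P) (S : κ.ord.ToType → Set P), Nonempty P ∧ DirClosed κ P ∧
      ∀ p : P, p ∈ StaysRegular P κ ∧
        p ∈ (fall fun a => fimp (meets (S a)) (fground (CofOmega a))) ∧
        p ∈ Stat (fun a => meets (S a)) ∧ p ∈ fnot (Diamond S) ∧
        (IndestructiblyIneffable κ → p ∈ Ineffable P κ) := by
  obtain ⟨P, _, S, h1, h2, h3⟩ := exists_forcing hκ
  exact ⟨P, inferInstance, S, h1, h2, fun p => ⟨(h3 p).1, (h3 p).2.1, (h3 p).2.2.1, (h3 p).2.2.2,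
    fun h => h P h2 p⟩⟩

end Pool.Agent.Results.MP_1eeea1_lc.Indestructible
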